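import Pool.Agent.Helper97.SZ.Goals

/-!
# Project SZ, packet PB: pullback of a symplectic form by a diffeomorphism
-/

set_option autoImplicit false

open Set Filter Topology Metric
open scoped ContDiff

namespace Pool.Agent.Helper98.SZ

open Pool.Agent.Helper91.SY Pool.Agent.Helper97.SZ

theorem smooth_flip {E : Type} [NormedAddCommGroup E] [NormedSpace ℝ E]
    (g : E → E →L[ℝ] E →L[ℝ] ℝ) (h : ContDiff ℝ ∞ g) : ContDiff ℝ ∞ (fun x => (g x).flip) := by
  have h1 := LinearIsometryEquiv.contDiff (𝕜 := ℝ) (n := ∞) (E := E →L[ℝ] E →L[ℝ] ℝ)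
    (F := E →L[ℝ] E →L[ℝ] ℝ) (ContinuousLinearMap.flipₗᵢ ℝ E E ℝ)
  exact h1.comp h

/-- PB -/
theorem pb : StmtPB := by
  intro E _ _ _ g B hg hB
  have hgs : ContDiff ℝ ∞ (fun x => g x) := hg.1
  have hD : ContDiff ℝ ∞ (fderiv ℝ (fun x => g x)) := hgs.fderiv_right (by norm_num)
  have hgd : ∀ x, HasFDerivAt (fun x => g x) (fderiv ℝ (fun x => g x) x) x := fun x =>
    ((hgs.differentiable (by norm_num)) x).hasFDerivAt
  have hDd : ∀ x, HasFDerivAt (fderiv ℝ (fun x => g x))
      (fderiv ℝ (fderiv ℝ (fun x => g x)) x) x := fun x =>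
    ((hD.differentiable (by norm_num)) x).hasFDerivAt
  have hBd : ∀ x, HasFDerivAt B (fderiv ℝ B x) x := fun x =>
    ((hB.smooth.differentiable (by norm_num)) x).hasFDerivAt
  have hsymm : ∀ x u v, fderiv ℝ (fderiv ℝ (fun x => g x)) x u v =
      fderiv ℝ (fderiv ℝ (fun x => g x)) x v u := by
    intro x u v
    have h1 : IsSymmSndFDerivAt ℝ (fun x => g x) x := by
      apply (hgs.contDiffAt (x := x)).isSymmSndFDerivAt
      rw [minSmoothness_of_isRCLikeNormedField]
      exact WithTop.coe_le_coe.2 (le_top : (2 : ℕ∞) ≤ ⊤)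
    exact h1 u v
  have hanti : ∀ x u v, B x u v = - B x v u := by
    intro x u v
    have h1 := hB.alt x (u + v)
    simp only [map_add, add_apply, hB.alt x u, hB.alt x v] at h1
    linarith
  have hsmooth : ContDiff ℝ ∞ (Pool.Agent.Helper97.SZ.pb (fun x => g x) B) := by
    have h1 : ContDiff ℝ ∞ (fun x => (B (g x)).comp (fderiv ℝ (fun x => g x) x)) :=
      (hB.smooth.comp hgs).clm_comp hD
    have h2 : ContDiff ℝ ∞ (fun x => ((B (g x)).comp (fderiv ℝ (fun x => g x) x)).flip) :=
      smooth_flip _ h1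
    have h3 : ContDiff ℝ ∞ (fun x => (((B (g x)).comp (fderiv ℝ (fun x => g x) x)).flip).comp
        (fderiv ℝ (fun x => g x) x)) := h2.clm_comp hD
    exact smooth_flip _ h3
  have happ : ∀ x v w, Pool.Agent.Helper97.SZ.pb (fun x => g x) B x v w =
      B (g x) (fderiv ℝ (fun x => g x) x v) (fderiv ℝ (fun x => g x) x w) := fun x v w => rfl
  have hder : ∀ x u v w, fderiv ℝ (Pool.Agent.Helper97.SZ.pb (fun x => g x) B) x u v w =
      fderiv ℝ B (g x) (fderiv ℝ (fun x => g x) x u) (fderiv ℝ (fun x => g x) x v)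
        (fderiv ℝ (fun x => g x) x w) +
      B (g x) (fderiv ℝ (fderiv ℝ (fun x => g x)) x u v) (fderiv ℝ (fun x => g x) x w) +
      B (g x) (fderiv ℝ (fun x => g x) x v) (fderiv ℝ (fderiv ℝ (fun x => g x)) x u w) := by
    intro x u v w
    have e1 : HasFDerivAt (Pool.Agent.Helper97.SZ.pb (fun x => g x) B)
        (fderiv ℝ (Pool.Agent.Helper97.SZ.pb (fun x => g x) B) x) x :=
      ((hsmooth.differentiable (by norm_num)) x).hasFDerivAt
    have e2 := (e1.clm_apply (hasFDerivAt_const v x)).clm_apply (hasFDerivAt_const w x)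
    have f0 : HasFDerivAt (fun x => B (g x)) ((fderiv ℝ B (g x)).comp
        (fderiv ℝ (fun x => g x) x)) x :=
      HasFDerivAt.comp (g := B) (f := fun x => g x) x (hBd (g x)) (hgd x)
    have f1 : HasFDerivAt (fun x => fderiv ℝ (fun x => g x) x v) _ x :=
      (hDd x).clm_apply (hasFDerivAt_const v x)
    have f2 : HasFDerivAt (fun x => fderiv ℝ (fun x => g x) x w) _ x :=
      (hDd x).clm_apply (hasFDerivAt_const w x)
    have e3 := (f0.clm_apply f1).clm_apply f2
    have e4 := e2.unique e3
    have e5 := DFunLike.congr_fun e4 u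
    simp at e5
    rw [e5]
    ring
  refine ⟨⟨hsmooth, ?_, ?_, ?_⟩, ?_⟩
  · intro x u
    rw [happ, hB.alt]
  · intro x u v w
    rw [hder, hder, hder, hsymm x v u, hsymm x w u, hsymm x w v]
    have h1 := hB.closed (g x) (fderiv ℝ (fun x => g x) x u) (fderiv ℝ (fun x => g x) x v)
      (fderiv ℝ (fun x => g x) x w)
    have h2 := hanti (g x) (fderiv ℝ (fderiv ℝ (fun x => g x)) x u w) (fderiv ℝ (fun x => g x) x v)
    linarith
  · intro x u hu
    have hgsd : HasFDerivAt (fun x => g.symm x) (fderiv ℝ (fun x => g.symm x) (g x)) (g x) :=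
      ((hg.2.differentiable (by norm_num)) (g x)).hasFDerivAt
    have c1 : (fderiv ℝ (fun x => g.symm x) (g x)).comp (fderiv ℝ (fun x => g x) x) =
        ContinuousLinearMap.id ℝ E := by
      have h1 := hgsd.comp x (hgd x)
      have h2 : ((fun x => g.symm x) ∘ fun x => g x) = id := by
        funext y; simp
      rw [h2] at h1
      exact h1.unique (hasFDerivAt_id x)
    have c2 : (fderiv ℝ (fun x => g x) x).comp (fderiv ℝ (fun x => g.symm x) (g x)) =
        ContinuousLinearMap.id ℝ E := by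
      have h0 : HasFDerivAt (fun x => g x) (fderiv ℝ (fun x => g x) x) (g.symm (g x)) := by
        rw [g.symm_apply_apply]; exact hgd x
      have h1 := h0.comp (g x) hgsd
      have h2 : ((fun x => g x) ∘ fun x => g.symm x) = id := by
        funext y; simp
      rw [h2] at h1
      exact h1.unique (hasFDerivAt_id (g x))
    have h3 : fderiv ℝ (fun x => g x) x u = 0 := by
      apply hB.nondeg (g x)
      intro v
      have h4 := hu (fderiv ℝ (fun x => g.symm x) (g x) v)
      rw [happ] at h4
      have h5 := DFunLike.congr_fun c2 v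
      simp only [ContinuousLinearMap.comp_apply, ContinuousLinearMap.id_apply] at h5
      rw [h5] at h4
      exact h4
    have h6 := DFunLike.congr_fun c1 u
    simp only [ContinuousLinearMap.comp_apply, ContinuousLinearMap.id_apply] at h6
    rw [← h6, h3, map_zero]
  · intro x u v
    rfl

end Pool.Agent.Helper98.SZ
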